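import Mathlib
import Pool.Agent.Helper28.RittN.Pack

set_option autoImplicit false

open scoped Differential

namespace Pool.Agent.Results.MP_4c097f_al.ArbitraryDrop

universe u

/-- `IsDiffTrdeg K L n`: the differential transcendence degree over `K` of the differential field
extension `L` is `n`, that is, `n` is the largest size `m` of a family `x` of `m` elements of `L`
that is differentially algebraically independent over `K`: the family of all the derivatives
`∂^k (x i)`, `i < m`, `k ≥ 0`, is algebraically independent over `K`. -/
def IsDiffTrdeg (K L : Type u) [Field K] [Field L] [Algebra K L] [Differential L] (n : ℕ) : Prop :=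
  IsGreatest {m : ℕ | ∃ x : Fin m → L,
    AlgebraicIndependent K (fun p : Fin m × ℕ => (fun y : L => y′)^[p.2] (x p.1))} n

/-- `DomainDiffTrdeg K B n`: the differential transcendence degree over `K` of the differential
`K`-domain `B`, which is the one of its fraction field, is `n`: the derivation of `B` extends to
the fraction field of `B`, and with this derivation the fraction field has degree `n`. -/
def DomainDiffTrdeg (K B : Type u) [Field K] [CommRing B] [IsDomain B] [Algebra K B]
    [Differential B] (n : ℕ) : Prop :=
  (∃ _ : Differential (FractionRing B), DifferentialAlgebra B (FractionRing B)) ∧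
    ∀ [Differential (FractionRing B)] [DifferentialAlgebra B (FractionRing B)],
      IsDiffTrdeg K (FractionRing B) n

open Helper28.RittN in
lemma deg_A (K : Type u) [Field K] [CharZero K] [Differential K] (m : ℕ) :
    DomainDiffTrdeg K (AK K m) (m + 2) := by
  refine ⟨exists_fractionRing (AK K m), ?_⟩
  intro _ _
  exact deg_AK K m

open Helper28.RittN in
lemma deg_quot (K : Type u) [Field K] [CharZero K] [Differential K] (m : ℕ) :
    DomainDiffTrdeg K (AK K m ⧸ MK K m) 0 := by
  refine ⟨exists_fractionRing (AK K m ⧸ MK K m), ?_⟩
  intro _ _
  exact deg_zero K (AK K m ⧸ MK K m) (quot_surj K m)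

/-- For every ordinary differential field `K` of characteristic zero and every `N ≥ 2` there are a
differential `K`-domain `A`, differentially generated by `2 N - 1` elements, and a non-unit `f` of
`A`, such that `[f]` has exactly one minimal prime `P`, and `A` has differential transcendence
degree `N`, but `A / P` has differential transcendence degree `0` over `K`. -/
theorem result (K : Type u) [Field K] [CharZero K] [Differential K] (N : ℕ) (hN : 2 ≤ N) :
    ∃ (A : Type u) (_ : CommRing A) (_ : IsDomain A) (_ : Algebra K A) (_ : Differential A),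
      DifferentialAlgebra K A ∧
      (∃ a : Fin (2 * N - 1) → A, Algebra.adjoin K
        (Set.range (fun p : Fin (2 * N - 1) × ℕ => (fun y : A => y′)^[p.2] (a p.1))) = ⊤) ∧
      ∃ (f : A) (P : Ideal A) (_ : P.IsPrime) (_ : Differential (A ⧸ P)),
        ¬ IsUnit f ∧
        (Ideal.span (Set.range (fun k : ℕ => (fun y : A => y′)^[k] f))).minimalPrimes = {P} ∧
        (∀ y : A, (Ideal.Quotient.mk P y)′ = Ideal.Quotient.mk P (y′)) ∧
        DomainDiffTrdeg K A N ∧ DomainDiffTrdeg K (A ⧸ P) 0 := by
  obtain ⟨m, rfl⟩ : ∃ m, N = m + 2 := ⟨N - 2, by omega⟩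
  exact Helper28.RittN.pack K (m + 2) (fun B _ _ _ _ n => DomainDiffTrdeg K B n)
    (Helper28.RittN.AK K m) (Helper28.RittN.aA K m) (Helper28.RittN.adjoin_top K m)
    (Helper28.RittN.fA K m) (Helper28.RittN.MK K m) (Helper28.RittN.fA_not_unit K m)
    (Helper28.RittN.minimalPrimes_eq K m) (Helper28.RittN.dr_mk K m) (deg_A K m) (deg_quot K m)

end Pool.Agent.Results.MP_4c097f_al.ArbitraryDrop
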